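import Pool.Agent.V5helper75.SecP.Vol

/-!
# Log-concavity of `t ↦ vol_k (D_t B_p^n ∩ H)` for `1 ≤ p ≤ 2`

We prove that for every `1 ≤ p ≤ 2`, every `n`, every `1 ≤ k ≤ n` and every `k`-dimensional subspace
`H` of `ℝⁿ` the function `F_{p,H}(t) = vol_k (D_t B_p^n ∩ H)` is log-concave on `ℝⁿ`. (The case `p = 1`
was known.) We also prove that it is log-supermodular.

Outline of the proof.
(1) `Γ(1 + k/p) F(t) = ∫_H exp (- ∑ e^{-p t_i} |x_i|^p) dx`.
(2) The Gaussian integrals `G(w) = ∫_H exp (- ∑ w_i x_i²)` satisfy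
`G(w+a) G(w+b) ≤ G(w+a+b) G(w)` for `a, b ≥ 0`, since a rank one update multiplies `G` by
`(1 + s u_j)^{-1/2}` with `u_j` decreasing in `w`.
(3) For `p ≤ 2` the function `exp (- b |x|^p)` is a limit of finite products of the functions
`1 - θ + θ exp (- s x²)`, where `θ ∈ [0,1]` increases with `b`; expand, and apply the four functions
theorem to obtain that `∫_H exp (- ∑ b_i |x_i|^p)` is log-supermodular in `b`, hence `F` is
log-supermodular in `t`. (So the mixing measure need not be log-concave in the logarithmic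
coordinates, and in fact it is not for `1 < p < 2`.)
(4) A monotone supermodular function `g` on `ℝⁿ` with `g(t + a(1,…,1)) = g(t) + k a` is concave: apply
supermodularity to `x - (a,…,a)` and `y` repeatedly, each time halving the oscillation of `x - y` and
keeping `x + y`.
-/

open MeasureTheory Module

namespace Pool.Agent.Results.MP_fa837f_gt.SectionsUpToTwo

open Pool.Agent.V5helper75.SecP

/-- The closed unit ball `B_p^n` of `ℓ_p^n`. -/
def Ball (n : ℕ) (p : ℝ) : Set (EuclideanSpace ℝ (Fin n)) := {x | ∑ i, |x i| ^ p ≤ 1}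

/-- The diagonal map `D_t = diag (e^{t_1}, …, e^{t_n})`. -/
noncomputable def D {n : ℕ} (t : Fin n → ℝ) (x : EuclideanSpace ℝ (Fin n)) :
    EuclideanSpace ℝ (Fin n) := WithLp.toLp 2 fun i => Real.exp (t i) * x i

/-- `k`-dimensional Lebesgue measure on the subspace `H`, with the Euclidean structure inherited
from `ℝⁿ` (normalised by giving measure `1` to the cube spanned by an orthonormal basis). -/
noncomputable def volH {n : ℕ} (H : Submodule ℝ (EuclideanSpace ℝ (Fin n))) : Measure H :=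
  (measureSpaceOfInnerProductSpace : MeasureSpace H).volume

/-- `F_{p,H}(t) = vol_k (D_t B_p^n ∩ H)`. -/
noncomputable def F {n : ℕ} (p : ℝ) (H : Submodule ℝ (EuclideanSpace ℝ (Fin n)))
    (t : Fin n → ℝ) : ℝ :=
  (volH H {x : H | (x : EuclideanSpace ℝ (Fin n)) ∈ D t '' Ball n p}).toReal

/-- The coordinate functionals on `H`. -/
noncomputable def coord {n : ℕ} (H : Submodule ℝ (EuclideanSpace ℝ (Fin n))) (i : Fin n) :
    H →ₗ[ℝ] ℝ where
  toFun x := (x : EuclideanSpace ℝ (Fin n)) i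
  map_add' x y := by simp
  map_smul' r x := by simp

lemma coord_sq {n : ℕ} (H : Submodule ℝ (EuclideanSpace ℝ (Fin n))) (x : H) :
    ∑ i, (coord H i x) ^ 2 = ‖x‖ ^ 2 := by
  rw [Submodule.coe_norm, EuclideanSpace.norm_sq_eq]
  refine Finset.sum_congr rfl fun i _ => ?_
  rw [Real.norm_eq_abs, sq_abs]
  rfl

lemma F_eq {n : ℕ} (p : ℝ) (H : Submodule ℝ (EuclideanSpace ℝ (Fin n))) (t : Fin n → ℝ) :
    F p H t = V (coord H) p t := by
  unfold F V volH
  congr 2
  ext x
  change (x : EuclideanSpace ℝ (Fin n)) ∈ D t '' Ball n p ↔ En (coord H) p t x ≤ 1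
  constructor
  · rintro ⟨y, hy, hyx⟩
    change ∑ i, |y i| ^ p ≤ 1 at hy
    unfold En
    refine le_trans (le_of_eq (Finset.sum_congr rfl fun i _ => ?_)) hy
    have : coord H i x = Real.exp (t i) * y i := by
      change (x : EuclideanSpace ℝ (Fin n)) i = _
      rw [← hyx]; rfl
    rw [this, ← mul_assoc, ← Real.exp_add, neg_add_cancel, Real.exp_zero, one_mul]
  · intro h
    refine ⟨WithLp.toLp 2 fun i => Real.exp (-t i) * coord H i x, h, ?_⟩
    ext i
    change Real.exp (t i) * (Real.exp (-t i) * coord H i x) = coord H i x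
    rw [← mul_assoc, ← Real.exp_add, add_neg_cancel, Real.exp_zero, one_mul]

/-- **Q1 for `1 ≤ p ≤ 2`.** For all `1 ≤ p ≤ 2`, all `n` and all subspaces `H` of `ℝⁿ` of dimension at
least `1`: `F_{p,H}` is positive, log-concave on `ℝⁿ`, and moreover log-supermodular. -/
theorem result (p : ℝ) (hp : 1 ≤ p) (hp2 : p ≤ 2) (n : ℕ)
    (H : Submodule ℝ (EuclideanSpace ℝ (Fin n))) (hH : 1 ≤ finrank ℝ H) :
    (∀ t : Fin n → ℝ, 0 < F p H t) ∧
    (∀ s t : Fin n → ℝ, ∀ a : ℝ, 0 ≤ a → a ≤ 1 →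
      F p H s ^ a * F p H t ^ (1 - a) ≤ F p H (a • s + (1 - a) • t)) ∧
    (∀ s t : Fin n → ℝ, F p H s * F p H t ≤ F p H (s ⊔ t) * F p H (s ⊓ t)) := by
  have : Nontrivial H := Module.nontrivial_of_finrank_pos (R := ℝ) (by omega)
  refine ⟨fun t => ?_, fun s t a ha0 ha1 => ?_, fun s t => ?_⟩
  · rw [F_eq]
    exact V_pos (coord_sq H) hp t
  · rw [F_eq, F_eq, F_eq]
    exact V_logconcave (coord_sq H) hp hp2 s t ha0 ha1
  · rw [F_eq, F_eq, F_eq, F_eq, V_eq (coord_sq H) hp, V_eq (coord_sq H) hp,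
      V_eq (coord_sq H) hp, V_eq (coord_sq H) hp, div_mul_div_comm, div_mul_div_comm]
    have hΓ : 0 < Real.Gamma (finrank ℝ H / p + 1) := Real.Gamma_pos_of_pos (by positivity)
    exact div_le_div_of_nonneg_right (W_super (coord_sq H) hp hp2 s t) (by positivity)

end Pool.Agent.Results.MP_fa837f_gt.SectionsUpToTwo
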